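import Pool.Agent.BI.M8
import Pool.Agent.BI.M9

/-!
# MP_0d1e2e_co : Beer index versus convexity ratio for triangle-closed planar sets

There is an absolute constant `α` with `b(S) ≤ α con(S)` for every p-componentwise simply Δ-connected
planar set `S` with `b(S)` defined.
-/

set_option autoImplicit false

open MeasureTheory Set
open scoped ENNReal

namespace Pool.Agent.Results.MP_0d1e2e_co.LinearBound

/-- `S` is p-componentwise simply Δ-connected: every triangle (convex hull of three non-collinear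
points) whose three sides lie in `S` is contained in `S`. -/
def TriConn (S : Set (ℝ × ℝ)) : Prop :=
  ∀ A B C : ℝ × ℝ, ¬ Collinear ℝ {A, B, C} → segment ℝ A B ⊆ S → segment ℝ B C ⊆ S →
    segment ℝ C A ⊆ S → convexHull ℝ {A, B, C} ⊆ S

/-- The segment set: the pairs of points of `S` which see each other in `S`. -/
def seg (S : Set (ℝ × ℝ)) : Set ((ℝ × ℝ) × (ℝ × ℝ)) :=
  {p | p.1 ∈ S ∧ p.2 ∈ S ∧ segment ℝ p.1 p.2 ⊆ S}

/-- The Beer index `b(S) = λ₄(seg S) / λ₂(S)²`. -/
noncomputable def beer (S : Set (ℝ × ℝ)) : ℝ := (volume (seg S)).toReal / (volume S).toReal ^ 2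

/-- The convexity ratio `con(S) = sup {λ₂(C) : C ⊆ S convex} / λ₂(S)`. -/
noncomputable def con (S : Set (ℝ × ℝ)) : ℝ :=
  sSup {r : ℝ | ∃ C ⊆ S, Convex ℝ C ∧ r = (volume C).toReal} / (volume S).toReal

theorem mem_seg {S : Set (ℝ × ℝ)} {p : (ℝ × ℝ) × (ℝ × ℝ)} :
    p ∈ seg S ↔ segment ℝ p.1 p.2 ⊆ S :=
  ⟨fun h => h.2.2, fun h => ⟨h (left_mem_segment ℝ _ _), h (right_mem_segment ℝ _ _), h⟩⟩

/-- the bound for a given upper bound `K > 0` of the areas of the convex subsets -/
theorem main_ineq : ∃ C : ℝ, 0 < C ∧ ∀ (S : Set (ℝ × ℝ)) (K : ℝ), TriConn S → 0 < K →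
    (∀ C ⊆ S, Convex ℝ C → volume C ≤ ENNReal.ofReal K) → volume S < ⊤ →
    NullMeasurableSet (seg S) volume →
    (volume (seg S)).toReal ≤ C * K * (volume S).toReal := by
  obtain ⟨C, hC, h⟩ := Pool.Agent.BI.chords_bound
  refine ⟨8 * C, by positivity, ?_⟩
  intro S K hS hK hcv hfin hseg
  obtain ⟨G1, hG1s, hG1m, hG1e⟩ := hseg.exists_measurable_subset_ae_eq
  obtain ⟨G2, hG2s, hG2m, hG2e⟩ := hseg.exists_measurable_superset_ae_eq
  set G : Set ((ℝ × ℝ) × (ℝ × ℝ)) := {p | (p.1 - p.2, p.1 + p.2) ∈ G1} with hGdef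
  set G' : Set ((ℝ × ℝ) × (ℝ × ℝ)) := {p | (p.1, p.1 + p.2) ∈ G2} with hG'def
  have hGm : MeasurableSet G := by
    have : Measurable (fun p : (ℝ × ℝ) × (ℝ × ℝ) => (p.1 - p.2, p.1 + p.2)) := by fun_prop
    exact this hG1m
  have hG'm : MeasurableSet G' := by
    have : Measurable (fun p : (ℝ × ℝ) × (ℝ × ℝ) => (p.1, p.1 + p.2)) := by fun_prop
    exact this hG2m
  have hv1 : volume (seg S) = 4 * volume G := by
    rw [← measure_congr hG1e]
    exact Pool.Agent.BI.volume_mid hG1m
  have hv2 : volume G' = volume (seg S) := by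
    rw [← measure_congr hG2e]
    exact Pool.Agent.BI.volume_shift hG2m
  have hsegfin : volume (seg S) ≠ ⊤ := by
    have h1 : seg S ⊆ S ×ˢ S := fun p hp => ⟨hp.1, hp.2.1⟩
    have h2 : volume (S ×ˢ S) < ⊤ := by
      rw [Measure.volume_eq_prod, Measure.prod_prod]
      exact ENNReal.mul_lt_top hfin hfin
    exact (lt_of_le_of_lt (measure_mono h1) h2).ne
  have key := h S (toMeasurable volume S) K G G' hS (measurableSet_toMeasurable _ _)
    (subset_toMeasurable _ _) (by rw [measure_toMeasurable]; exact hfin.ne) hK hcv hGm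
    (fun p hp => mem_seg.1 (hG1s hp)) hG'm (fun y w hyw => hG2s (mem_seg.2 hyw))
    (by rw [hv2]; exact hsegfin)
  rw [measure_toMeasurable, hv2] at key
  set m := (volume (seg S)).toReal with hm
  set s := (volume S).toReal with hs
  have hm0 : 0 ≤ m := ENNReal.toReal_nonneg
  have hs0 : 0 ≤ s := ENNReal.toReal_nonneg
  have e1 : volume (seg S) = ENNReal.ofReal m := (ENNReal.ofReal_toReal hsegfin).symm
  have e2 : volume S = ENNReal.ofReal s := (ENNReal.ofReal_toReal hfin.ne).symm
  have h4 : (4 : ℝ≥0∞) = ENNReal.ofReal 4 := by simp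
  have k2 : volume (seg S) ≤ 4 * (ENNReal.ofReal (C * K) * volume S +
      ENNReal.ofReal (1 / 8) * volume (seg S)) := by
    calc volume (seg S) = 4 * volume G := hv1
      _ ≤ _ := by gcongr
  rw [e1, e2, h4, ← ENNReal.ofReal_mul (by positivity), ← ENNReal.ofReal_mul (by positivity),
    ← ENNReal.ofReal_add (by positivity) (by positivity), ← ENNReal.ofReal_mul (by positivity),
    ENNReal.ofReal_le_ofReal_iff (by positivity)] at k2
  nlinarith

/-- There is an absolute constant `α` with `b(S) ≤ α con(S)` for every Δ-connected planar set `S`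
with Beer index defined. -/
theorem result : ∃ α : ℝ, 0 < α ∧ ∀ S : Set (ℝ × ℝ), TriConn S → NullMeasurableSet S volume →
    0 < volume S → volume S < ⊤ → NullMeasurableSet (seg S) volume → beer S ≤ α * con S := by
  obtain ⟨C, hC, h⟩ := main_ineq
  refine ⟨C, hC, ?_⟩
  intro S hS _ hpos hfin hseg
  set s := (volume S).toReal with hs
  have hs0 : 0 < s := ENNReal.toReal_pos hpos.ne' hfin.ne
  set R := {r : ℝ | ∃ C ⊆ S, Convex ℝ C ∧ r = (volume C).toReal} with hR
  set κ := sSup R with hκ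
  have hbdd : BddAbove R := by
    refine ⟨s, ?_⟩
    rintro r ⟨C, hCS, -, rfl⟩
    exact ENNReal.toReal_mono hfin.ne (measure_mono hCS)
  have hne : (0 : ℝ) ∈ R := ⟨∅, empty_subset _, convex_empty, by simp⟩
  have hκ0 : 0 ≤ κ := le_csSup hbdd hne
  have hCκ : ∀ C ⊆ S, Convex ℝ C → volume C ≤ ENNReal.ofReal κ := by
    intro C hCS hCc
    have h1 : volume C ≠ ⊤ := (lt_of_le_of_lt (measure_mono hCS) hfin).ne
    rw [← ENNReal.ofReal_toReal h1]
    exact ENNReal.ofReal_le_ofReal (le_csSup hbdd ⟨C, hCS, hCc, rfl⟩)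
  have hcon : con S = κ / s := rfl
  have hbeer : beer S = (volume (seg S)).toReal / s ^ 2 := rfl
  have hlim : (volume (seg S)).toReal ≤ C * κ * s := by
    apply le_of_forall_pos_le_add
    intro ε hε
    have h1 := h S (κ + ε / (C * s)) hS (by positivity) (fun D hD hDc => (hCκ D hD hDc).trans
      (ENNReal.ofReal_le_ofReal (by
        have : 0 < ε / (C * s) := by positivity
        linarith))) hfin hseg
    refine h1.trans (le_of_eq ?_)
    rw [← hs]
    field_simp
  rw [hcon, hbeer, div_le_iff₀ (by positivity)]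
  refine hlim.trans (le_of_eq ?_)
  field_simp

end Pool.Agent.Results.MP_0d1e2e_co.LinearBound
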