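import Mathlib

/-!
# MP_0d1e2e_co : Beer index versus convexity ratio for triangle-closed planar sets

`b(S) ≤ 2240 con(S) (1 + log (1 / con(S)))` for every p-componentwise simply Δ-connected planar set
`S` with `b(S)` defined.

Proof. Let every convex subset of `S` have area at most `K`, `s = λ₂(S)`. Parametrise the segments in
`S` by midpoint `z` and vector `u`, `t(z)` = area of the vectors `u` admissible at `z`, `m = ∫ t`.
`∫ t²` is at most twice the measure of the triples `(z, u, w)`, `u`, `w` admissible at `z` and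
`|w| ≤ |u|`. Sliding the segment of half the length of `u` along the segment of `u` (change of variables) reduces
the estimate of this measure to the following: for one segment with midpoint `z₀` and vector `u'` in `S`, bound the
measure of the pairs `(λ, x)` such that `x` sees the point `z₀ + λ u'`, `|λ| ≤ 1/2`. For one point `x` the
visible `λ` have pairwise distance at most `4 K / |det (u', x - z₀)|` by Δ-connectedness; this is
integrated over `x` dyadically. So `∫ t² ≤ 2240 K (1 + log (s / K)) m`, and `m ≤ 2240 K (1 + log (s/K)) s` by the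
inequality of the arithmetic and geometric means.
-/

set_option autoImplicit false

open MeasureTheory Set
open scoped ENNReal

namespace Pool.Agent.Results.MP_0d1e2e_co.LogBound

/-- `S` is p-componentwise simply Δ-connected: every triangle (convex hull of three non-collinear
points) whose three sides lie in `S` is contained in `S`. -/
def TriConn (S : Set (ℝ × ℝ)) : Prop :=
  ∀ A B C : ℝ × ℝ, ¬ Collinear ℝ {A, B, C} → segment ℝ A B ⊆ S → segment ℝ B C ⊆ S →
    segment ℝ C A ⊆ S → convexHull ℝ {A, B, C} ⊆ S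

/-- The segment set: the pairs of points of `S` which see each other in `S`. -/
def seg (S : Set (ℝ × ℝ)) : Set ((ℝ × ℝ) × (ℝ × ℝ)) :=
  {p | p.1 ∈ S ∧ p.2 ∈ S ∧ segment ℝ p.1 p.2 ⊆ S}

/-- The Beer index `b(S) = λ₄(seg S) / λ₂(S)²`. -/
noncomputable def beer (S : Set (ℝ × ℝ)) : ℝ := (volume (seg S)).toReal / (volume S).toReal ^ 2

/-- The convexity ratio `con(S) = sup {λ₂(C) : C ⊆ S convex} / λ₂(S)`. -/
noncomputable def con (S : Set (ℝ × ℝ)) : ℝ :=
  sSup {r : ℝ | ∃ C ⊆ S, Convex ℝ C ∧ r = (volume C).toReal} / (volume S).toReal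

theorem par_area (x v w : ℝ × ℝ) :
    volume ((fun p : ℝ × ℝ => x + (p.1 • v + p.2 • w)) ''
      (Icc (0 : ℝ) (1 / 2) ×ˢ Icc (0 : ℝ) (1 / 2))) =
      ENNReal.ofReal (|v.1 * w.2 - v.2 * w.1| / 4) := by
  set f : ℝ × ℝ →ₗ[ℝ] ℝ × ℝ := Matrix.toLin (Module.Basis.finTwoProd ℝ) (Module.Basis.finTwoProd ℝ)
    !![v.1, w.1; v.2, w.2] with hf
  have hfa : ∀ p : ℝ × ℝ, f p = p.1 • v + p.2 • w := by
    intro p
    rw [hf, Matrix.toLin_finTwoProd_apply]
    ext <;> simp <;> ring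
  have himg : (fun p : ℝ × ℝ => x + (p.1 • v + p.2 • w)) ''
      (Icc (0 : ℝ) (1 / 2) ×ˢ Icc (0 : ℝ) (1 / 2)) =
      (fun y => x + y) '' (f '' (Icc (0 : ℝ) (1 / 2) ×ˢ Icc (0 : ℝ) (1 / 2))) := by
    rw [image_image]
    simp only [hfa]
  have hdet : LinearMap.det f = v.1 * w.2 - v.2 * w.1 := by
    rw [hf, LinearMap.det_toLin, Matrix.det_fin_two_of]
    ring
  rw [himg, image_add_left, measure_preimage_add, Measure.addHaar_image_linearMap, hdet]
  have hQ : volume (Icc (0 : ℝ) (1 / 2) ×ˢ Icc (0 : ℝ) (1 / 2)) = ENNReal.ofReal (1 / 4) := by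
    rw [Measure.volume_eq_prod, Measure.prod_prod, Real.volume_Icc, ← ENNReal.ofReal_mul (by norm_num)]
    norm_num
  rw [hQ, ← ENNReal.ofReal_mul (abs_nonneg _)]
  congr 1
  ring

theorem not_collinear (x p q : ℝ × ℝ)
    (h : (p.1 - x.1) * (q.2 - x.2) - (p.2 - x.2) * (q.1 - x.1) ≠ 0) :
    ¬ Collinear ℝ {x, p, q} := by
  intro hc
  rw [collinear_iff_of_mem (p₀ := x) (by simp)] at hc
  obtain ⟨v, hv⟩ := hc
  obtain ⟨r, hr⟩ := hv p (by simp)
  obtain ⟨s, hs⟩ := hv q (by simp)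
  apply h
  rw [hr, hs]
  simp
  ring

theorem tri_bound {S : Set (ℝ × ℝ)} (hS : TriConn S) {K : ℝ} (hK : 0 ≤ K)
    (hC : ∀ C ⊆ S, Convex ℝ C → volume C ≤ ENNReal.ofReal K) (x p q : ℝ × ℝ)
    (h1 : segment ℝ x p ⊆ S) (h2 : segment ℝ p q ⊆ S) (h3 : segment ℝ q x ⊆ S) :
    |(p.1 - x.1) * (q.2 - x.2) - (p.2 - x.2) * (q.1 - x.1)| ≤ 4 * K := by
  by_cases h0 : (p.1 - x.1) * (q.2 - x.2) - (p.2 - x.2) * (q.1 - x.1) = 0
  · rw [h0, abs_zero]
    linarith
  have hull := hS x p q (not_collinear x p q h0) h1 h2 h3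
  set P : Set (ℝ × ℝ) := (fun y : ℝ × ℝ => x + (y.1 • (p - x) + y.2 • (q - x))) ''
    (Icc (0 : ℝ) (1 / 2) ×ˢ Icc (0 : ℝ) (1 / 2)) with hP
  have hPS : P ⊆ S := by
    refine Subset.trans ?_ hull
    rintro _ ⟨⟨a, b⟩, ⟨ha, hb⟩, rfl⟩
    simp only [mem_Icc] at ha hb
    have hx : x ∈ convexHull ℝ ({x, p, q} : Set (ℝ × ℝ)) := subset_convexHull _ _ (by simp)
    have hp : p ∈ convexHull ℝ ({x, p, q} : Set (ℝ × ℝ)) := subset_convexHull _ _ (by simp)
    have hq : q ∈ convexHull ℝ ({x, p, q} : Set (ℝ × ℝ)) := subset_convexHull _ _ (by simp)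
    have hconv := convex_convexHull ℝ ({x, p, q} : Set (ℝ × ℝ))
    have key : (1 - a - b) • x + a • p + b • q ∈ convexHull ℝ ({x, p, q} : Set (ℝ × ℝ)) := by
      have := hconv.sum_mem (t := (Finset.univ : Finset (Fin 3))) (w := ![1 - a - b, a, b])
        (z := ![x, p, q]) (by
          intro i _
          fin_cases i
          · simp; linarith [ha.2, hb.2]
          · simpa using ha.1
          · simpa using hb.1) (by simp [Fin.sum_univ_three]; ring) (by
          intro i _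
          fin_cases i
          · simpa using hx
          · simpa using hp
          · simpa using hq)
      simpa [Fin.sum_univ_three] using this
    have e : x + (a • (p - x) + b • (q - x)) = (1 - a - b) • x + a • p + b • q := by
      module
    simp only
    rw [e]
    exact key
  have hPc : Convex ℝ P := by
    have h5 : Convex ℝ (Icc (0 : ℝ) (1 / 2) ×ˢ Icc (0 : ℝ) (1 / 2)) :=
      (convex_Icc 0 (1 / 2)).prod (convex_Icc 0 (1 / 2))
    have h6 := (h5.linear_image ((LinearMap.fst ℝ ℝ ℝ).smulRight (p - x) +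
        (LinearMap.snd ℝ ℝ ℝ).smulRight (q - x))).translate x
    rw [image_image] at h6
    exact h6
  have h7 := hC P hPS hPc
  rw [hP, par_area, ENNReal.ofReal_le_ofReal_iff hK] at h7
  simp only [Prod.fst_sub, Prod.snd_sub] at h7
  linarith

theorem sec_bound {a b z1 z2 U τ : ℝ} (hU : 0 < U) (ha : |a| = U) (y1 : ℝ) :
    volume {y2 : ℝ | |y1 - z1| ≤ 3 / 2 * U ∧ |a * (y2 - z2) - b * (y1 - z1)| ≤ τ} ≤
      (Icc (z1 - 3 / 2 * U) (z1 + 3 / 2 * U)).indicator (fun _ => ENNReal.ofReal (2 * τ / U)) y1 := by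
  by_cases h : y1 ∈ Icc (z1 - 3 / 2 * U) (z1 + 3 / 2 * U)
  · rw [indicator_of_mem h]
    have ha0 : a ≠ 0 := by
      rintro rfl
      rw [abs_zero] at ha
      linarith
    have hsub : {y2 : ℝ | |y1 - z1| ≤ 3 / 2 * U ∧ |a * (y2 - z2) - b * (y1 - z1)| ≤ τ} ⊆
        Icc (z2 + b / a * (y1 - z1) - τ / U) (z2 + b / a * (y1 - z1) + τ / U) := by
      rintro y2 ⟨-, h2⟩
      have e : a * (y2 - z2) - b * (y1 - z1) = a * (y2 - (z2 + b / a * (y1 - z1))) := by
        field_simp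
        ring
      rw [e, abs_mul, ha] at h2
      have h3 : |y2 - (z2 + b / a * (y1 - z1))| ≤ τ / U := by
        rw [le_div_iff₀ hU, mul_comm]
        exact h2
      rw [abs_le] at h3
      constructor <;> linarith [h3.1, h3.2]
    refine (measure_mono hsub).trans ?_
    rw [Real.volume_Icc]
    apply ENNReal.ofReal_le_ofReal
    apply le_of_eq
    ring
  · rw [indicator_of_notMem h]
    have : {y2 : ℝ | |y1 - z1| ≤ 3 / 2 * U ∧ |a * (y2 - z2) - b * (y1 - z1)| ≤ τ} = ∅ := by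
      ext y2
      simp only [mem_ofPred_eq, mem_empty_iff_false, iff_false, not_and]
      intro h1
      exfalso
      apply h
      rw [abs_le] at h1
      constructor <;> linarith [h1.1, h1.2]
    rw [this, measure_empty]

theorem int_bound {z1 U τ : ℝ} (hU : 0 < U) (hτ : 0 ≤ τ) :
    ∫⁻ y1 : ℝ, (Icc (z1 - 3 / 2 * U) (z1 + 3 / 2 * U)).indicator
      (fun _ => ENNReal.ofReal (2 * τ / U)) y1 = ENNReal.ofReal (6 * τ) := by
  rw [lintegral_indicator measurableSet_Icc, setLIntegral_const, Real.volume_Icc,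
    ← ENNReal.ofReal_mul (by positivity)]
  congr 1
  field_simp
  ring

theorem strip_bound (z u : ℝ × ℝ) (τ : ℝ) (hτ : 0 ≤ τ) :
    volume {y : ℝ × ℝ | ‖y - z‖ ≤ 3 / 2 * ‖u‖ ∧
      |u.1 * (y.2 - z.2) - u.2 * (y.1 - z.1)| ≤ τ} ≤ ENNReal.ofReal (6 * τ) := by
  set T := {y : ℝ × ℝ | ‖y - z‖ ≤ 3 / 2 * ‖u‖ ∧
      |u.1 * (y.2 - z.2) - u.2 * (y.1 - z.1)| ≤ τ} with hT
  have hTm : MeasurableSet T := by
    have h1 : IsClosed {y : ℝ × ℝ | ‖y - z‖ ≤ 3 / 2 * ‖u‖} :=
      isClosed_le (by fun_prop) (by fun_prop)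
    have h2 : IsClosed {y : ℝ × ℝ | |u.1 * (y.2 - z.2) - u.2 * (y.1 - z.1)| ≤ τ} :=
      isClosed_le (by fun_prop) (by fun_prop)
    exact (h1.inter h2).measurableSet
  rcases (norm_nonneg u).eq_or_lt with h0 | hU
  · have : T ⊆ {z} := by
      rintro y ⟨h1, -⟩
      rw [← h0, mul_zero] at h1
      have h2 := norm_le_zero_iff.1 h1
      rw [mem_singleton_iff]
      exact sub_eq_zero.1 h2
    calc volume T ≤ volume {z} := measure_mono this
      _ = 0 := measure_singleton z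
      _ ≤ _ := bot_le
  have hnorm : ‖u‖ = max |u.1| |u.2| := by
    rw [Prod.norm_def, Real.norm_eq_abs, Real.norm_eq_abs]
  rcases max_choice |u.1| |u.2| with h | h
  · have ha : |u.1| = ‖u‖ := by rw [hnorm, h]
    calc volume T = ∫⁻ y1 : ℝ, volume (Prod.mk y1 ⁻¹' T) := by
          rw [Measure.volume_eq_prod, Measure.prod_apply hTm]
      _ ≤ ∫⁻ y1 : ℝ, (Icc (z.1 - 3 / 2 * ‖u‖) (z.1 + 3 / 2 * ‖u‖)).indicator
          (fun _ => ENNReal.ofReal (2 * τ / ‖u‖)) y1 := by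
          apply lintegral_mono
          intro y1
          refine le_trans (measure_mono ?_) (sec_bound (z2 := z.2) (b := u.2) hU ha y1)
          rintro y2 ⟨h1, h2⟩
          refine ⟨?_, h2⟩
          have := norm_fst_le (((y1, y2) : ℝ × ℝ) - z)
          rw [Prod.fst_sub, Real.norm_eq_abs] at this
          exact this.trans h1
      _ = _ := int_bound hU hτ
  · have ha : |u.2| = ‖u‖ := by rw [hnorm, h]
    calc volume T = ∫⁻ y2 : ℝ, volume ((fun y1 => (y1, y2)) ⁻¹' T) := by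
          rw [Measure.volume_eq_prod, Measure.prod_apply_symm hTm]
      _ ≤ ∫⁻ y2 : ℝ, (Icc (z.2 - 3 / 2 * ‖u‖) (z.2 + 3 / 2 * ‖u‖)).indicator
          (fun _ => ENNReal.ofReal (2 * τ / ‖u‖)) y2 := by
          apply lintegral_mono
          intro y2
          refine le_trans (measure_mono ?_) (sec_bound (z2 := z.1) (b := u.1) hU ha y2)
          rintro y1 ⟨h1, h2⟩
          refine ⟨?_, ?_⟩
          · have := norm_snd_le (((y1, y2) : ℝ × ℝ) - z)
            rw [Prod.snd_sub, Real.norm_eq_abs] at this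
            exact this.trans h1
          · rw [abs_sub_comm]
            exact h2
      _ = _ := int_bound hU hτ

/-- the dyadic majorant of `min 1 (4 K / d)` -/
noncomputable def fJ (K : ℝ) (J : ℕ) (d : ℝ) : ℝ :=
  (1 / 2) ^ J + ∑ j ∈ Finset.range J, if d ≤ 4 * K * 2 ^ (j + 1) then (1 / 2 : ℝ) ^ j else 0

theorem fJ_nonneg (K : ℝ) (J : ℕ) (d : ℝ) : 0 ≤ fJ K J d := by
  unfold fJ
  refine add_nonneg (by positivity) (Finset.sum_nonneg fun j _ => ?_)
  split_ifs <;> positivity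

theorem le_fJ {K v d : ℝ} (hK : 0 < K) (h1 : v ≤ 1) (h0 : 0 ≤ v) (h2 : v * d ≤ 4 * K) (J : ℕ) :
    v ≤ fJ K J d := by
  induction J with
  | zero => simpa [fJ] using h1
  | succ J ih =>
    unfold fJ at ih ⊢
    rw [Finset.sum_range_succ]
    by_cases hd : d ≤ 4 * K * 2 ^ (J + 1)
    · rw [if_pos hd]
      have : (0 : ℝ) ≤ (1 / 2) ^ (J + 1) := by positivity
      linarith
    · rw [if_neg hd]
      push Not at hd
      have h3 : v ≤ (1 / 2) ^ (J + 1) := by
        have hp : (0 : ℝ) < 2 ^ (J + 1) := by positivity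
        rw [one_div, inv_pow, ← one_div, le_div_iff₀ hp]
        by_contra hcon
        push Not at hcon
        have h4 : v * (4 * K * 2 ^ (J + 1)) ≤ v * d := mul_le_mul_of_nonneg_left hd.le h0
        have h5 : 4 * K * 1 < 4 * K * (v * 2 ^ (J + 1)) := by
          apply mul_lt_mul_of_pos_left hcon (by positivity)
        nlinarith
      have h6 : 0 ≤ ∑ j ∈ Finset.range J, if d ≤ 4 * K * 2 ^ (j + 1) then (1 / 2 : ℝ) ^ j else 0 :=
        Finset.sum_nonneg fun j _ => by split_ifs <;> positivity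
      linarith

theorem exists_J {K s : ℝ} (hK : 0 < K) (hKs : K ≤ s) :
    ∃ J : ℕ, (1 / 2 : ℝ) ^ J * s + 48 * K * J ≤ 70 * K * (1 + Real.log (s / K)) := by
  have hl2 : (0 : ℝ) < Real.log 2 := Real.log_pos (by norm_num)
  have hl2' : (0.6931 : ℝ) ≤ Real.log 2 := by linarith [Real.log_two_gt_d9]
  have h1 : 1 ≤ s / K := by rw [le_div_iff₀ hK]; linarith
  have hL : 0 ≤ Real.log (s / K) := Real.log_nonneg h1
  refine ⟨⌈Real.log (s / K) / Real.log 2⌉₊, ?_⟩
  set J := ⌈Real.log (s / K) / Real.log 2⌉₊ with hJ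
  have hJ1 : Real.log (s / K) / Real.log 2 ≤ J := Nat.le_ceil _
  have hJ2 : (J : ℝ) < Real.log (s / K) / Real.log 2 + 1 :=
    Nat.ceil_lt_add_one (div_nonneg hL hl2.le)
  have h2 : (1 / 2 : ℝ) ^ J * s ≤ K := by
    rw [div_le_iff₀ hl2] at hJ1
    have h3 : s / K ≤ 2 ^ J := by
      rw [← Real.exp_log (show (0 : ℝ) < s / K by linarith),
        ← Real.exp_log (show (0 : ℝ) < 2 ^ J by positivity), Real.exp_le_exp, Real.log_pow]
      exact hJ1
    rw [div_le_iff₀ hK] at h3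
    have hp : (0 : ℝ) < 2 ^ J := by positivity
    rw [one_div, inv_pow, inv_mul_le_iff₀ hp]
    exact h3
  have h4 : Real.log (s / K) / Real.log 2 ≤ Real.log (s / K) * 1.4428 := by
    rw [div_le_iff₀ hl2, mul_assoc]
    have : (1 : ℝ) ≤ 1.4428 * Real.log 2 := by
      nlinarith
    nlinarith
  nlinarith

theorem sq_le (A : Set (ℝ × ℝ)) (hA : MeasurableSet A) :
    volume A ^ 2 ≤ 2 * ∫⁻ u in A, volume {w | w ∈ A ∧ ‖w‖ ≤ ‖u‖} := by
  set B1 : Set ((ℝ × ℝ) × (ℝ × ℝ)) := {p | p.1 ∈ A ∧ p.2 ∈ A ∧ ‖p.2‖ ≤ ‖p.1‖} with hB1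
  set B2 : Set ((ℝ × ℝ) × (ℝ × ℝ)) := {p | p.1 ∈ A ∧ p.2 ∈ A ∧ ‖p.1‖ ≤ ‖p.2‖} with hB2
  have hm1 : MeasurableSet B1 := by
    have h1 : MeasurableSet {p : (ℝ × ℝ) × (ℝ × ℝ) | ‖p.2‖ ≤ ‖p.1‖} :=
      measurableSet_le (by fun_prop) (by fun_prop)
    exact (measurable_fst hA).inter ((measurable_snd hA).inter h1)
  have hm2 : MeasurableSet B2 := by
    have h1 : MeasurableSet {p : (ℝ × ℝ) × (ℝ × ℝ) | ‖p.1‖ ≤ ‖p.2‖} :=
      measurableSet_le (by fun_prop) (by fun_prop)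
    exact (measurable_fst hA).inter ((measurable_snd hA).inter h1)
  have hsub : A ×ˢ A ⊆ B1 ∪ B2 := by
    rintro ⟨u, w⟩ ⟨hu, hw⟩
    rcases le_total ‖w‖ ‖u‖ with h | h
    · exact Or.inl ⟨hu, hw, h⟩
    · exact Or.inr ⟨hu, hw, h⟩
  have h1 : volume A ^ 2 ≤ volume B1 + volume B2 := by
    rw [sq, ← Measure.prod_prod, ← Measure.volume_eq_prod]
    exact (measure_mono hsub).trans (measure_union_le _ _)
  have e1 : volume B1 = ∫⁻ u in A, volume {w | w ∈ A ∧ ‖w‖ ≤ ‖u‖} := by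
    rw [Measure.volume_eq_prod, Measure.prod_apply hm1, ← lintegral_indicator hA]
    apply lintegral_congr
    intro u
    by_cases hu : u ∈ A
    · rw [indicator_of_mem hu]
      congr 1
      ext w
      exact ⟨fun h => ⟨h.2.1, h.2.2⟩, fun h => ⟨hu, h.1, h.2⟩⟩
    · rw [indicator_of_notMem hu]
      convert measure_empty
      · ext w
        simp only [mem_preimage, mem_empty_iff_false, iff_false]
        exact fun h => hu h.1
      · infer_instance
  have e2 : volume B2 = ∫⁻ u in A, volume {w | w ∈ A ∧ ‖w‖ ≤ ‖u‖} := by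
    rw [Measure.volume_eq_prod, Measure.prod_apply_symm hm2, ← lintegral_indicator hA]
    apply lintegral_congr
    intro u
    by_cases hu : u ∈ A
    · rw [indicator_of_mem hu]
      congr 1
      ext w
      exact ⟨fun h => ⟨h.1, h.2.2⟩, fun h => ⟨h.1, hu, h.2⟩⟩
    · rw [indicator_of_notMem hu]
      convert measure_empty
      · ext w
        simp only [mem_preimage, mem_empty_iff_false, iff_false]
        exact fun h => hu h.2.1
      · infer_instance
  rw [e1, e2, ← two_mul] at h1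
  exact h1

theorem lintegral_two_smul (F : ℝ × ℝ → ℝ≥0∞) :
    ∫⁻ u, F u = 4 * ∫⁻ u, F ((2 : ℝ) • u) := by
  have h := Measure.map_addHaar_smul (volume : Measure (ℝ × ℝ)) (r := (2 : ℝ)) two_ne_zero
  have hf : MeasurableEmbedding (fun u : ℝ × ℝ => (2 : ℝ) • u) :=
    (Homeomorph.smulOfNeZero (2 : ℝ) two_ne_zero).measurableEmbedding
  have h2 : ∫⁻ u, F ((2 : ℝ) • u) = ∫⁻ u, F u ∂(Measure.map (fun u : ℝ × ℝ => (2 : ℝ) • u) volume) := by
    rw [hf.lintegral_map]
  rw [h2, h, lintegral_smul_measure]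
  have h3 : Module.finrank ℝ (ℝ × ℝ) = 2 := by simp
  rw [h3, smul_eq_mul, ← mul_assoc]
  have h4 : (4 : ℝ≥0∞) * ENNReal.ofReal |((2 : ℝ) ^ 2)⁻¹| = 1 := by
    have : (4 : ℝ≥0∞) = ENNReal.ofReal 4 := by simp
    rw [this, ← ENNReal.ofReal_mul (by norm_num)]
    norm_num
  rw [h4, one_mul]

theorem cov (lam : ℝ) (f : (ℝ × ℝ) × (ℝ × ℝ) → ℝ≥0∞) (hf : Measurable f) :
    ∫⁻ p, f p = 4 * ∫⁻ q : (ℝ × ℝ) × (ℝ × ℝ), f (q.1 + lam • q.2, (2 : ℝ) • q.2) := by
  rw [Measure.volume_eq_prod, lintegral_prod_symm _ hf.aemeasurable,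
    lintegral_prod_symm (fun q : (ℝ × ℝ) × (ℝ × ℝ) => f (q.1 + lam • q.2, (2 : ℝ) • q.2))
      (Measurable.aemeasurable (by fun_prop)), lintegral_two_smul]
  congr 1
  apply lintegral_congr
  intro u
  exact (lintegral_add_right_eq_self (fun z => f (z, (2 : ℝ) • u)) (lam • u)).symm

/-- halving the vectors -/
theorem vol_double (z : ℝ × ℝ) (T : Set (ℝ × ℝ)) :
    volume T = 4 * volume {x : ℝ × ℝ | (2 : ℝ) • (x - z) ∈ T} := by
  have h1 : {x : ℝ × ℝ | (2 : ℝ) • (x - z) ∈ T} =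
      (fun x => x + -z) ⁻¹' ((fun u : ℝ × ℝ => (2 : ℝ) • u) ⁻¹' T) := by
    ext x
    simp only [mem_ofPred_eq, mem_preimage, sub_eq_add_neg]
  rw [h1, measure_preimage_add_right, Measure.addHaar_preimage_smul _ two_ne_zero]
  have h3 : Module.finrank ℝ (ℝ × ℝ) = 2 := by simp
  rw [h3, ← mul_assoc]
  have h4 : (4 : ℝ≥0∞) * ENNReal.ofReal |((2 : ℝ) ^ 2)⁻¹| = 1 := by
    have : (4 : ℝ≥0∞) = ENNReal.ofReal 4 := by simp
    rw [this, ← ENNReal.ofReal_mul (by norm_num)]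
    norm_num
  rw [h4, one_mul]

/-- the determinant -/
def dt (z u x : ℝ × ℝ) : ℝ := u.1 * (x.2 - z.2) - u.2 * (x.1 - z.1)

/-- the unit interval of parameters -/
def II : Set ℝ := Icc (-(1 / 2) : ℝ) (1 / 2)

theorem weight_bound {K s : ℝ} (hK : 0 < K) (hs : 0 ≤ s) (B : Set (ℝ × ℝ))
    (hBs : volume B ≤ ENNReal.ofReal s) (z u : ℝ × ℝ) (J : ℕ) :
    ∫⁻ x in B ∩ {x | ‖x - z‖ ≤ 3 / 2 * ‖u‖}, ENNReal.ofReal (fJ K J |dt z u x|) ≤
      ENNReal.ofReal ((1 / 2) ^ J * s + 48 * K * J) := by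
  have hm0 : MeasurableSet {x : ℝ × ℝ | ‖x - z‖ ≤ 3 / 2 * ‖u‖} :=
    measurableSet_le (by fun_prop) (by fun_prop)
  have hm1 : ∀ τ : ℝ, MeasurableSet {x : ℝ × ℝ | |dt z u x| ≤ τ} := by
    intro τ
    unfold dt
    exact measurableSet_le (by fun_prop) (by fun_prop)
  have e1 : ∀ x, ENNReal.ofReal (fJ K J |dt z u x|) = ENNReal.ofReal ((1 / 2) ^ J) +
      ∑ j ∈ Finset.range J, {x : ℝ × ℝ | |dt z u x| ≤ 4 * K * 2 ^ (j + 1)}.indicator
        (fun _ => ENNReal.ofReal ((1 / 2) ^ j)) x := by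
    intro x
    unfold fJ
    rw [ENNReal.ofReal_add (by positivity) (Finset.sum_nonneg fun j _ => by
      split_ifs <;> positivity), ENNReal.ofReal_sum_of_nonneg (fun j _ => by
      split_ifs <;> positivity)]
    congr 1
    apply Finset.sum_congr rfl
    intro j _
    by_cases h : |dt z u x| ≤ 4 * K * 2 ^ (j + 1)
    · rw [if_pos h, indicator_of_mem (show x ∈ {x : ℝ × ℝ | |dt z u x| ≤ 4 * K * 2 ^ (j + 1)} from h)]
    · rw [if_neg h, indicator_of_notMem (show x ∉ {x : ℝ × ℝ | |dt z u x| ≤ 4 * K * 2 ^ (j + 1)} from h),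
        ENNReal.ofReal_zero]
  simp_rw [e1]
  rw [lintegral_add_left measurable_const, lintegral_finsetSum]
  swap
  · intro j _
    exact measurable_const.indicator (hm1 _)
  rw [ENNReal.ofReal_add (by positivity) (by positivity)]
  apply add_le_add
  · rw [setLIntegral_const, ENNReal.ofReal_mul (by positivity)]
    gcongr
    exact (measure_mono inter_subset_left).trans hBs
  · have e2 : (48 : ℝ) * K * J = ∑ j ∈ Finset.range J, (48 : ℝ) * K := by
      rw [Finset.sum_const, Finset.card_range, nsmul_eq_mul]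
      ring
    rw [e2, ENNReal.ofReal_sum_of_nonneg (fun _ _ => by positivity)]
    apply Finset.sum_le_sum
    intro j _
    rw [lintegral_indicator (hm1 _), setLIntegral_const, Measure.restrict_apply (hm1 _)]
    have h1 : volume ({x : ℝ × ℝ | |dt z u x| ≤ 4 * K * 2 ^ (j + 1)} ∩
        (B ∩ {x | ‖x - z‖ ≤ 3 / 2 * ‖u‖})) ≤ ENNReal.ofReal (6 * (4 * K * 2 ^ (j + 1))) := by
      refine le_trans (measure_mono ?_) (strip_bound z u _ (by positivity))
      rintro x ⟨h1, -, h2⟩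
      exact ⟨h2, h1⟩
    refine (mul_le_mul_right h1 _).trans ?_
    rw [← ENNReal.ofReal_mul (by positivity)]
    apply ENNReal.ofReal_le_ofReal
    apply le_of_eq
    rw [pow_succ, one_div, inv_pow]
    field_simp
    norm_num

theorem lam_bound {S : Set (ℝ × ℝ)} (hS : TriConn S) {K : ℝ} (hK : 0 < K)
    (hC : ∀ C ⊆ S, Convex ℝ C → volume C ≤ ENNReal.ofReal K) (J : ℕ)
    (G : Set ((ℝ × ℝ) × (ℝ × ℝ)))
    (hG : ∀ p ∈ G, segment ℝ (p.1 - (1 / 2 : ℝ) • p.2) (p.1 + (1 / 2 : ℝ) • p.2) ⊆ S)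
    (S' : Set (ℝ × ℝ)) (hS' : S ⊆ S')
    (z u : ℝ × ℝ) (hzu : segment ℝ (z - (1 / 2 : ℝ) • u) (z + (1 / 2 : ℝ) • u) ⊆ S) (x : ℝ × ℝ) :
    volume {lam : ℝ | lam ∈ II ∧ (z + lam • u, (2 : ℝ) • (x - (z + lam • u))) ∈ G ∧
      ‖(2 : ℝ) • (x - (z + lam • u))‖ ≤ ‖(2 : ℝ) • u‖} ≤
      (S' ∩ {x | ‖x - z‖ ≤ 3 / 2 * ‖u‖}).indicator
        (fun x => ENNReal.ofReal (fJ K J |dt z u x|)) x := by
  set Lam := {lam : ℝ | lam ∈ II ∧ (z + lam • u, (2 : ℝ) • (x - (z + lam • u))) ∈ G ∧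
      ‖(2 : ℝ) • (x - (z + lam • u))‖ ≤ ‖(2 : ℝ) • u‖} with hLam
  rcases Lam.eq_empty_or_nonempty with he | ⟨l0, hl0⟩
  · rw [he, measure_empty]
    exact bot_le
  -- the points of the segment
  have hpt : ∀ l ∈ II, z + l • u ∈ segment ℝ (z - (1 / 2 : ℝ) • u) (z + (1 / 2 : ℝ) • u) := by
    rintro l ⟨h1, h2⟩
    refine ⟨1 / 2 - l, 1 / 2 + l, by linarith, by linarith, by ring, ?_⟩
    module
  have hxp : ∀ l ∈ Lam, segment ℝ x (z + l • u) ⊆ S := by
    rintro l ⟨-, h2, -⟩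
    refine Subset.trans ?_ (hG _ h2)
    apply (convex_segment _ _).segment_subset
    · simp only
      refine ⟨0, 1, by norm_num, by norm_num, by norm_num, ?_⟩
      module
    · simp only
      refine ⟨1 / 2, 1 / 2, by norm_num, by norm_num, by norm_num, ?_⟩
      module
  have hmem : x ∈ S' ∩ {x | ‖x - z‖ ≤ 3 / 2 * ‖u‖} := by
    constructor
    · exact hS' (hxp l0 hl0 (left_mem_segment ℝ _ _))
    · have h3 := hl0.2.2
      rw [norm_smul, norm_smul] at h3
      have h4 : ‖x - (z + l0 • u)‖ ≤ ‖u‖ := by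
        have : (0 : ℝ) < ‖(2 : ℝ)‖ := by norm_num
        exact le_of_mul_le_mul_left h3 this
      have h5 : ‖l0 • u‖ ≤ 1 / 2 * ‖u‖ := by
        rw [norm_smul, Real.norm_eq_abs]
        apply mul_le_mul_of_nonneg_right _ (norm_nonneg _)
        rw [abs_le]
        exact ⟨hl0.1.1, hl0.1.2⟩
      have h6 : x - z = (x - (z + l0 • u)) + l0 • u := by abel
      change ‖x - z‖ ≤ 3 / 2 * ‖u‖
      rw [h6]
      refine (norm_add_le _ _).trans ?_
      linarith
  rw [indicator_of_mem hmem]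
  have hsub : Lam ⊆ II := fun l hl => hl.1
  have hII : volume II = 1 := by
    unfold II
    rw [Real.volume_Icc]
    norm_num
  have hv1 : volume Lam ≤ 1 := by
    rw [← hII]
    exact measure_mono hsub
  have hfin : volume Lam ≠ ⊤ := ne_top_of_le_ne_top ENNReal.one_ne_top hv1
  have hdiam : ∀ l1 ∈ Lam, ∀ l2 ∈ Lam, |l1 - l2| * |dt z u x| ≤ 4 * K := by
    intro l1 h1 l2 h2
    have h3 := tri_bound hS hK.le hC x (z + l1 • u) (z + l2 • u) (hxp l1 h1)
      (Subset.trans ((convex_segment _ _).segment_subset (hpt l1 h1.1) (hpt l2 h2.1)) hzu)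
      (by rw [segment_symm]; exact hxp l2 h2)
    rw [abs_sub_comm l1 l2, ← abs_mul]
    refine le_trans (le_of_eq ?_) h3
    congr 1
    unfold dt
    simp only [Prod.fst_add, Prod.snd_add, Prod.smul_fst, Prod.smul_snd, smul_eq_mul]
    ring
  have hv2 : (volume Lam).toReal * |dt z u x| ≤ 4 * K := by
    rcases (abs_nonneg (dt z u x)).eq_or_lt with h0 | h0
    · rw [← h0, mul_zero]
      positivity
    · rw [← le_div_iff₀ h0]
      have h4 : volume Lam ≤ ENNReal.ofReal (4 * K / |dt z u x|) := by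
        refine (Real.volume_le_diam Lam).trans ?_
        apply Metric.ediam_le
        intro l1 h1 l2 h2
        rw [edist_dist, Real.dist_eq]
        apply ENNReal.ofReal_le_ofReal
        rw [le_div_iff₀ h0]
        exact hdiam l1 h1 l2 h2
      exact ENNReal.toReal_le_of_le_ofReal (by positivity) h4
  have h5 : (volume Lam).toReal ≤ fJ K J |dt z u x| :=
    le_fJ hK (by
      have := ENNReal.toReal_mono ENNReal.one_ne_top hv1
      simpa using this) ENNReal.toReal_nonneg hv2 J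
  rw [← ENNReal.ofReal_toReal hfin]
  exact ENNReal.ofReal_le_ofReal h5

theorem measurableSet_II : MeasurableSet II := measurableSet_Icc

theorem volume_II : volume II = 1 := by
  unfold II
  rw [Real.volume_Icc]
  norm_num

theorem H_bound {S : Set (ℝ × ℝ)} (hS : TriConn S) {K s : ℝ} (hK : 0 < K) (hs : 0 ≤ s)
    (hC : ∀ C ⊆ S, Convex ℝ C → volume C ≤ ENNReal.ofReal K) (J : ℕ)
    (G : Set ((ℝ × ℝ) × (ℝ × ℝ))) (hGm : MeasurableSet G)
    (hG : ∀ p ∈ G, segment ℝ (p.1 - (1 / 2 : ℝ) • p.2) (p.1 + (1 / 2 : ℝ) • p.2) ⊆ S)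
    (S' : Set (ℝ × ℝ)) (hS' : S ⊆ S') (hSm : MeasurableSet S')
    (hSs : volume S' ≤ ENNReal.ofReal s)
    (z u : ℝ × ℝ) (hzu : segment ℝ (z - (1 / 2 : ℝ) • u) (z + (1 / 2 : ℝ) • u) ⊆ S) :
    ∫⁻ lam in II, volume {w : ℝ × ℝ | (z + lam • u, w) ∈ G ∧ ‖w‖ ≤ ‖(2 : ℝ) • u‖} ≤
      4 * ENNReal.ofReal ((1 / 2) ^ J * s + 48 * K * J) := by
  set R : Set (ℝ × (ℝ × ℝ)) := {q | q.1 ∈ II ∧
    (z + q.1 • u, (2 : ℝ) • (q.2 - (z + q.1 • u))) ∈ G ∧
      ‖(2 : ℝ) • (q.2 - (z + q.1 • u))‖ ≤ ‖(2 : ℝ) • u‖} with hR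
  have hRm : MeasurableSet R := by
    have h1 : MeasurableSet {q : ℝ × (ℝ × ℝ) | q.1 ∈ II} := measurable_fst measurableSet_II
    have h2 : MeasurableSet {q : ℝ × (ℝ × ℝ) |
        (z + q.1 • u, (2 : ℝ) • (q.2 - (z + q.1 • u))) ∈ G} := by
      have : Measurable (fun q : ℝ × (ℝ × ℝ) =>
        (z + q.1 • u, (2 : ℝ) • (q.2 - (z + q.1 • u)))) := by fun_prop
      exact this hGm
    have h3 : MeasurableSet {q : ℝ × (ℝ × ℝ) |
        ‖(2 : ℝ) • (q.2 - (z + q.1 • u))‖ ≤ ‖(2 : ℝ) • u‖} :=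
      measurableSet_le (by fun_prop) (by fun_prop)
    exact h1.inter (h2.inter h3)
  have hBm : MeasurableSet (S' ∩ {x : ℝ × ℝ | ‖x - z‖ ≤ 3 / 2 * ‖u‖}) :=
    hSm.inter (measurableSet_le (by fun_prop) (by fun_prop))
  have e1 : ∫⁻ lam in II, volume {w : ℝ × ℝ | (z + lam • u, w) ∈ G ∧ ‖w‖ ≤ ‖(2 : ℝ) • u‖} =
      4 * volume R := by
    have e0 : volume R = ∫⁻ lam, volume (Prod.mk lam ⁻¹' R) := by
      rw [Measure.volume_eq_prod ℝ (ℝ × ℝ), Measure.prod_apply hRm]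
    rw [e0, ← lintegral_const_mul, ← lintegral_indicator measurableSet_II]
    · apply lintegral_congr
      intro lam
      by_cases hl : lam ∈ II
      · rw [indicator_of_mem hl, vol_double (z + lam • u)]
        congr 2
        ext x
        exact ⟨fun h => ⟨hl, h.1, h.2⟩, fun h => ⟨h.2.1, h.2.2⟩⟩
      · rw [indicator_of_notMem hl]
        have : Prod.mk lam ⁻¹' R = ∅ := by
          ext x
          simp only [mem_preimage, mem_empty_iff_false, iff_false]
          exact fun h => hl h.1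
        rw [this, measure_empty, mul_zero]
    · exact measurable_measure_prodMk_left hRm
  rw [e1]
  gcongr
  rw [Measure.volume_eq_prod ℝ (ℝ × ℝ), Measure.prod_apply_symm hRm]
  refine (lintegral_mono fun x => lam_bound hS hK hC J G hG S' hS' z u hzu x).trans ?_
  rw [lintegral_indicator hBm]
  exact weight_bound hK hs S' hSs z u J

/-- the amount of shorter vectors -/
noncomputable def gg (G : Set ((ℝ × ℝ) × (ℝ × ℝ))) (p : (ℝ × ℝ) × (ℝ × ℝ)) : ℝ≥0∞ :=
  volume {w : ℝ × ℝ | (p.1, w) ∈ G ∧ ‖w‖ ≤ ‖p.2‖}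

theorem measurable_gg (G : Set ((ℝ × ℝ) × (ℝ × ℝ))) (hGm : MeasurableSet G) :
    Measurable (gg G) := by
  have h1 : MeasurableSet {q : ((ℝ × ℝ) × (ℝ × ℝ)) × (ℝ × ℝ) |
      (q.1.1, q.2) ∈ G ∧ ‖q.2‖ ≤ ‖q.1.2‖} := by
    have h2 : Measurable (fun q : ((ℝ × ℝ) × (ℝ × ℝ)) × (ℝ × ℝ) => (q.1.1, q.2)) := by fun_prop
    have h3 : MeasurableSet {q : ((ℝ × ℝ) × (ℝ × ℝ)) × (ℝ × ℝ) | ‖q.2‖ ≤ ‖q.1.2‖} :=
      measurableSet_le (by fun_prop) (by fun_prop)
    exact (h2 hGm).inter h3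
  exact measurable_measure_prodMk_left h1

theorem E_bound {S : Set (ℝ × ℝ)} (G G' : Set ((ℝ × ℝ) × (ℝ × ℝ))) (hGm : MeasurableSet G)
    (hG'm : MeasurableSet G') (C0 : ℝ≥0∞)
    (hG : ∀ p ∈ G, segment ℝ (p.1 - (1 / 2 : ℝ) • p.2) (p.1 + (1 / 2 : ℝ) • p.2) ⊆ S)
    (hG' : ∀ p : (ℝ × ℝ) × (ℝ × ℝ),
      segment ℝ (p.1 - (1 / 2 : ℝ) • p.2) (p.1 + (1 / 2 : ℝ) • p.2) ⊆ S → p ∈ G')
    (hGG' : G' =ᵐ[volume] G)
    (hH : ∀ p ∈ G, ∫⁻ lam in II, gg G (p.1 + lam • p.2, (2 : ℝ) • p.2) ≤ C0) :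
    ∫⁻ p in G, gg G p ≤ 4 * C0 * volume G := by
  have hgm := measurable_gg G hGm
  set f : ℝ → (ℝ × ℝ) × (ℝ × ℝ) → ℝ≥0∞ := fun lam p =>
    G'.indicator 1 (p.1 - (lam / 2) • p.2, (1 / 2 : ℝ) • p.2) * gg G p with hf
  have hfm : ∀ lam, Measurable (f lam) := by
    intro lam
    have h1 : Measurable (fun p : (ℝ × ℝ) × (ℝ × ℝ) =>
      (p.1 - (lam / 2) • p.2, (1 / 2 : ℝ) • p.2)) := by fun_prop
    exact ((measurable_one.indicator hG'm).comp h1).mul hgm
  have h1 : ∀ lam ∈ II, ∫⁻ p in G, gg G p ≤ ∫⁻ p, f lam p := by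
    intro lam hl
    rw [← lintegral_indicator hGm]
    apply lintegral_mono
    intro p
    by_cases hp : p ∈ G
    · rw [indicator_of_mem hp]
      have h2 : (p.1 - (lam / 2) • p.2, (1 / 2 : ℝ) • p.2) ∈ G' := by
        apply hG'
        refine Subset.trans ((convex_segment _ _).segment_subset ?_ ?_) (hG p hp)
        · simp only
          obtain ⟨h3, h4⟩ := hl
          refine ⟨1 / 2 + (lam / 2 + 1 / 4), 1 / 2 - (lam / 2 + 1 / 4), by linarith, by linarith,
            by ring, ?_⟩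
          module
        · simp only
          obtain ⟨h3, h4⟩ := hl
          refine ⟨1 / 2 + (lam / 2 - 1 / 4), 1 / 2 - (lam / 2 - 1 / 4), by linarith, by linarith,
            by ring, ?_⟩
          module
      simp only [hf]
      rw [indicator_of_mem h2, Pi.one_apply, one_mul]
    · rw [indicator_of_notMem hp]
      exact bot_le
  have h2 : ∫⁻ p in G, gg G p ≤ ∫⁻ lam in II, ∫⁻ p, f lam p := by
    calc ∫⁻ p in G, gg G p = ∫⁻ _ in II, (∫⁻ p in G, gg G p) := by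
          rw [setLIntegral_const, volume_II, mul_one]
      _ ≤ ∫⁻ lam in II, ∫⁻ p, f lam p := setLIntegral_mono' measurableSet_II h1
  have h3 : ∀ lam : ℝ, ∫⁻ p, f lam p = 4 * ∫⁻ q : (ℝ × ℝ) × (ℝ × ℝ),
      G'.indicator 1 q * gg G (q.1 + lam • q.2, (2 : ℝ) • q.2) := by
    intro lam
    rw [cov lam _ (hfm lam)]
    congr 1
    apply lintegral_congr
    intro q
    simp only [hf]
    congr 2
    refine Prod.ext ?_ ?_
    · simp only
      module
    · simp only
      module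
  have hgm2 : Measurable (fun q : ℝ × ((ℝ × ℝ) × (ℝ × ℝ)) =>
      gg G (q.2.1 + q.1 • q.2.2, (2 : ℝ) • q.2.2)) :=
    hgm.comp (by fun_prop)
  have h4 : ∫⁻ lam in II, ∫⁻ p, f lam p =
      4 * ∫⁻ q : (ℝ × ℝ) × (ℝ × ℝ), G'.indicator 1 q *
        ∫⁻ lam in II, gg G (q.1 + lam • q.2, (2 : ℝ) • q.2) := by
    simp_rw [h3]
    rw [lintegral_const_mul']
    swap
    · norm_num
    congr 1
    rw [lintegral_lintegral_swap]
    · apply lintegral_congr
      intro q
      rw [lintegral_const_mul]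
      exact hgm2.comp (measurable_id.prodMk measurable_const)
    · apply Measurable.aemeasurable
      exact ((measurable_one.indicator hG'm).comp measurable_snd).mul hgm2
  have h5 : ∫⁻ q : (ℝ × ℝ) × (ℝ × ℝ), G'.indicator 1 q *
        ∫⁻ lam in II, gg G (q.1 + lam • q.2, (2 : ℝ) • q.2) ≤ C0 * volume G := by
    calc ∫⁻ q : (ℝ × ℝ) × (ℝ × ℝ), G'.indicator 1 q *
        ∫⁻ lam in II, gg G (q.1 + lam • q.2, (2 : ℝ) • q.2)
        = ∫⁻ q in G', ∫⁻ lam in II, gg G (q.1 + lam • q.2, (2 : ℝ) • q.2) := by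
          rw [← lintegral_indicator hG'm]
          apply lintegral_congr
          intro q
          by_cases hq : q ∈ G'
          · rw [indicator_of_mem hq, indicator_of_mem hq, Pi.one_apply, one_mul]
          · rw [indicator_of_notMem hq, indicator_of_notMem hq, zero_mul]
      _ = ∫⁻ q in G, ∫⁻ lam in II, gg G (q.1 + lam • q.2, (2 : ℝ) • q.2) :=
          setLIntegral_congr hGG'
      _ ≤ ∫⁻ q in G, C0 := setLIntegral_mono' hGm hH
      _ = C0 * volume G := by rw [setLIntegral_const]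
  calc ∫⁻ p in G, gg G p ≤ 4 * ∫⁻ q : (ℝ × ℝ) × (ℝ × ℝ), G'.indicator 1 q *
        ∫⁻ lam in II, gg G (q.1 + lam • q.2, (2 : ℝ) • q.2) := h2.trans h4.le
    _ ≤ 4 * (C0 * volume G) := by gcongr
    _ = 4 * C0 * volume G := by rw [mul_assoc]

theorem t_sq_bound (G : Set ((ℝ × ℝ) × (ℝ × ℝ))) (hGm : MeasurableSet G) :
    ∫⁻ z, volume (Prod.mk z ⁻¹' G) ^ 2 ≤ 2 * ∫⁻ p in G, gg G p := by
  have hgm := measurable_gg G hGm
  have e1 : ∫⁻ p in G, gg G p = ∫⁻ z, ∫⁻ u in Prod.mk z ⁻¹' G, gg G (z, u) := by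
    rw [← lintegral_indicator hGm, Measure.volume_eq_prod,
      lintegral_prod _ (hgm.indicator hGm).aemeasurable]
    apply lintegral_congr
    intro z
    rw [← lintegral_indicator (measurable_prodMk_left hGm)]
    apply lintegral_congr
    intro u
    by_cases h : (z, u) ∈ G
    · rw [indicator_of_mem h, indicator_of_mem (show u ∈ Prod.mk z ⁻¹' G from h)]
    · rw [indicator_of_notMem h, indicator_of_notMem (show u ∉ Prod.mk z ⁻¹' G from h)]
  rw [e1, ← lintegral_const_mul']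
  · apply lintegral_mono
    intro z
    exact sq_le _ (measurable_prodMk_left hGm)
  · norm_num

theorem amgm (c : ℝ) (hc : 0 ≤ c) (t : ℝ≥0∞) :
    2 * ENNReal.ofReal c * t ≤ t ^ 2 + ENNReal.ofReal c ^ 2 := by
  rcases eq_or_ne t ⊤ with rfl | ht
  · simp
  · rw [← ENNReal.ofReal_toReal ht]
    have h2 : (2 : ℝ≥0∞) = ENNReal.ofReal 2 := by simp
    rw [h2, ← ENNReal.ofReal_mul (by norm_num), ← ENNReal.ofReal_mul (by positivity),
      ← ENNReal.ofReal_pow (ENNReal.toReal_nonneg), ← ENNReal.ofReal_pow hc,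
      ← ENNReal.ofReal_add (by positivity) (by positivity)]
    apply ENNReal.ofReal_le_ofReal
    nlinarith [sq_nonneg (t.toReal - c)]

theorem mem_seg {S : Set (ℝ × ℝ)} {p : (ℝ × ℝ) × (ℝ × ℝ)} :
    p ∈ seg S ↔ segment ℝ p.1 p.2 ⊆ S :=
  ⟨fun h => h.2.2, fun h => ⟨h (left_mem_segment ℝ _ _), h (right_mem_segment ℝ _ _), h⟩⟩

/-- from midpoint and vector to the endpoints -/
noncomputable def Phi (p : (ℝ × ℝ) × (ℝ × ℝ)) : (ℝ × ℝ) × (ℝ × ℝ) :=
  (p.1 - (1 / 2 : ℝ) • p.2, p.1 + (1 / 2 : ℝ) • p.2)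

theorem measurable_Phi : Measurable Phi := by
  unfold Phi
  fun_prop

theorem vol_Phi (T : Set ((ℝ × ℝ) × (ℝ × ℝ))) (hT : MeasurableSet T) :
    volume (Phi ⁻¹' T) = volume T := by
  have h1 := measurePreserving_prod_add (volume : Measure (ℝ × ℝ)) (volume : Measure (ℝ × ℝ))
  have h2 : volume T = volume ((fun z : (ℝ × ℝ) × (ℝ × ℝ) => (z.1, z.1 + z.2)) ⁻¹' T) := by
    have := h1.measure_preimage hT.nullMeasurableSet
    exact this.symm
  have hm2 : MeasurableSet ((fun z : (ℝ × ℝ) × (ℝ × ℝ) => (z.1, z.1 + z.2)) ⁻¹' T) :=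
    h1.measurable hT
  rw [h2, Measure.volume_eq_prod, Measure.prod_apply_symm (measurable_Phi hT),
    Measure.prod_apply_symm hm2]
  apply lintegral_congr
  intro u
  have h3 : (fun z => (z, u)) ⁻¹' (Phi ⁻¹' T) =
      (fun z => z + -((1 / 2 : ℝ) • u)) ⁻¹' ((fun z => (z, u)) ⁻¹'
        ((fun z : (ℝ × ℝ) × (ℝ × ℝ) => (z.1, z.1 + z.2)) ⁻¹' T)) := by
    ext z
    simp only [mem_preimage, Phi]
    have e : z + -((1 / 2 : ℝ) • u) + u = z + (1 / 2 : ℝ) • u := by module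
    rw [e, ← sub_eq_add_neg]
  rw [h3, measure_preimage_add_right]

theorem main_ineq {S : Set (ℝ × ℝ)} (hS : TriConn S) {K s : ℝ} (hK : 0 < K) (hKs : K ≤ s)
    (hC : ∀ C ⊆ S, Convex ℝ C → volume C ≤ ENNReal.ofReal K)
    (hSs : volume S ≤ ENNReal.ofReal s) (hseg : NullMeasurableSet (seg S) volume) :
    (volume (seg S)).toReal ≤ 2240 * K * (1 + Real.log (s / K)) * s := by
  have hs : 0 < s := lt_of_lt_of_le hK hKs
  obtain ⟨J, hJ⟩ := exists_J hK hKs
  set L := Real.log (s / K) with hL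
  have hL0 : 0 ≤ L := Real.log_nonneg (by rw [le_div_iff₀ hK]; linarith)
  obtain ⟨G1, hG1s, hG1m, hG1e⟩ := hseg.exists_measurable_subset_ae_eq
  obtain ⟨G2, hG2s, hG2m, hG2e⟩ := hseg.exists_measurable_superset_ae_eq
  set G := Phi ⁻¹' G1 with hGdef
  set G' := Phi ⁻¹' G2 with hG'def
  have hGm : MeasurableSet G := measurable_Phi hG1m
  have hG'm : MeasurableSet G' := measurable_Phi hG2m
  have hG : ∀ p ∈ G, segment ℝ (p.1 - (1 / 2 : ℝ) • p.2) (p.1 + (1 / 2 : ℝ) • p.2) ⊆ S :=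
    fun p hp => mem_seg.1 (hG1s hp)
  have hG' : ∀ p : (ℝ × ℝ) × (ℝ × ℝ),
      segment ℝ (p.1 - (1 / 2 : ℝ) • p.2) (p.1 + (1 / 2 : ℝ) • p.2) ⊆ S → p ∈ G' :=
    fun p hp => hG2s (mem_seg.2 hp)
  have h12 : G2 =ᵐ[volume] G1 := hG2e.trans hG1e.symm
  have hGG' : G' =ᵐ[volume] G := by
    rw [ae_eq_set] at h12 ⊢
    constructor
    · rw [hG'def, hGdef, ← preimage_sdiff, vol_Phi _ (hG2m.diff hG1m)]
      exact h12.1
    · rw [hG'def, hGdef, ← preimage_sdiff, vol_Phi _ (hG1m.diff hG2m)]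
      exact h12.2
  have hvol : volume G = volume (seg S) := by
    rw [hGdef, vol_Phi _ hG1m]
    exact measure_congr hG1e
  set S' := toMeasurable volume S with hS'def
  have hS' : S ⊆ S' := subset_toMeasurable _ _
  have hSm : MeasurableSet S' := measurableSet_toMeasurable _ _
  have hSs' : volume S' ≤ ENNReal.ofReal s := by rw [hS'def, measure_toMeasurable]; exact hSs
  set C := 2240 * K * (1 + L) with hCdef
  have hC0 : 0 < C := by positivity
  have hE : ∫⁻ p in G, gg G p ≤ 4 * ENNReal.ofReal (280 * K * (1 + L)) * volume G := by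
    refine E_bound (S := S) G G' hGm hG'm _ hG hG' hGG' ?_
    intro p hp
    refine (H_bound hS hK hs.le hC J G hGm hG S' hS' hSm hSs' p.1 p.2 (hG p hp)).trans ?_
    have h4 : (4 : ℝ≥0∞) = ENNReal.ofReal 4 := by simp
    rw [h4, ← ENNReal.ofReal_mul (by norm_num)]
    apply ENNReal.ofReal_le_ofReal
    linarith
  have hT : ∫⁻ z, volume (Prod.mk z ⁻¹' G) ^ 2 ≤ ENNReal.ofReal C * volume G := by
    refine (t_sq_bound G hGm).trans ((mul_le_mul_right hE _).trans (le_of_eq ?_))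
    have h4 : (4 : ℝ≥0∞) = ENNReal.ofReal 4 := by simp
    have h2 : (2 : ℝ≥0∞) = ENNReal.ofReal 2 := by simp
    rw [h4, h2, ← mul_assoc, ← mul_assoc, ← ENNReal.ofReal_mul (by norm_num),
      ← ENNReal.ofReal_mul (by norm_num)]
    congr 2
    rw [hCdef]
    ring
  have htm : Measurable (fun z : ℝ × ℝ => volume (Prod.mk z ⁻¹' G)) :=
    measurable_measure_prodMk_left hGm
  have hsupp : ∫⁻ z in S', volume (Prod.mk z ⁻¹' G) = volume G := by
    rw [Measure.volume_eq_prod (ℝ × ℝ) (ℝ × ℝ), Measure.prod_apply hGm, ← lintegral_indicator hSm]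
    apply lintegral_congr
    intro z
    by_cases hz : z ∈ S'
    · rw [indicator_of_mem hz]
    · rw [indicator_of_notMem hz]
      have : Prod.mk z ⁻¹' G = ∅ := by
        ext u
        simp only [mem_preimage, mem_empty_iff_false, iff_false]
        intro h
        apply hz
        apply hS'
        refine hG _ h ⟨1 / 2, 1 / 2, by norm_num, by norm_num, by norm_num, ?_⟩
        simp only
        module
      rw [this, measure_empty]
  have hkey : 2 * ENNReal.ofReal C * volume G ≤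
      ENNReal.ofReal C * volume G + ENNReal.ofReal C ^ 2 * ENNReal.ofReal s := by
    calc 2 * ENNReal.ofReal C * volume G
        = ∫⁻ z in S', 2 * ENNReal.ofReal C * volume (Prod.mk z ⁻¹' G) := by
          rw [lintegral_const_mul _ htm, hsupp]
      _ ≤ ∫⁻ z in S', (volume (Prod.mk z ⁻¹' G) ^ 2 + ENNReal.ofReal C ^ 2) :=
          lintegral_mono fun z => amgm C hC0.le _
      _ = (∫⁻ z in S', volume (Prod.mk z ⁻¹' G) ^ 2) + ENNReal.ofReal C ^ 2 * volume S' := by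
          rw [lintegral_add_right _ measurable_const, setLIntegral_const]
      _ ≤ ENNReal.ofReal C * volume G + ENNReal.ofReal C ^ 2 * ENNReal.ofReal s := by
          gcongr
          exact (setLIntegral_le_lintegral _ _).trans hT
  have hfin : volume G ≠ ⊤ := by
    rw [hvol]
    have h1 : seg S ⊆ S ×ˢ S := fun p hp => ⟨hp.1, hp.2.1⟩
    have h2 : volume (S ×ˢ S) < ⊤ := by
      rw [Measure.volume_eq_prod, Measure.prod_prod]
      exact ENNReal.mul_lt_top (lt_of_le_of_lt hSs ENNReal.ofReal_lt_top)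
        (lt_of_le_of_lt hSs ENNReal.ofReal_lt_top)
    exact (lt_of_le_of_lt (measure_mono h1) h2).ne
  rw [← hvol]
  set m := (volume G).toReal with hm
  have hm0 : 0 ≤ m := ENNReal.toReal_nonneg
  have hGr : volume G = ENNReal.ofReal m := (ENNReal.ofReal_toReal hfin).symm
  have h2 : (2 : ℝ≥0∞) = ENNReal.ofReal 2 := by simp
  rw [hGr, h2, ← ENNReal.ofReal_pow hC0.le, ← ENNReal.ofReal_mul (by norm_num),
    ← ENNReal.ofReal_mul (by positivity), ← ENNReal.ofReal_mul (by positivity),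
    ← ENNReal.ofReal_mul (by positivity), ← ENNReal.ofReal_add (by positivity) (by positivity),
    ENNReal.ofReal_le_ofReal_iff (by positivity)] at hkey
  have h5 : C * m ≤ C * (C * s) := by nlinarith
  exact le_of_mul_le_mul_left h5 hC0

/-- Every Δ-connected planar set `S` with Beer index defined satisfies
`b(S) ≤ 2240 con(S) (1 + log (1 / con(S)))` (in particular `b(S) = 0` if `con(S) = 0`). -/
theorem result (S : Set (ℝ × ℝ)) (hS : TriConn S) (_hSm : NullMeasurableSet S volume)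
    (hpos : 0 < volume S) (hfin : volume S < ⊤) (hseg : NullMeasurableSet (seg S) volume) :
    beer S ≤ 2240 * con S * (1 + Real.log (1 / con S)) := by
  set s := (volume S).toReal with hs
  have hs0 : 0 < s := ENNReal.toReal_pos hpos.ne' hfin.ne
  set R := {r : ℝ | ∃ C ⊆ S, Convex ℝ C ∧ r = (volume C).toReal} with hR
  set κ := sSup R with hκ
  have hbdd : BddAbove R := by
    refine ⟨s, ?_⟩
    rintro r ⟨C, hCS, -, rfl⟩
    exact ENNReal.toReal_mono hfin.ne (measure_mono hCS)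
  have hne : (0 : ℝ) ∈ R := ⟨∅, empty_subset _, convex_empty, by simp⟩
  have hκ0 : 0 ≤ κ := le_csSup hbdd hne
  have hκs : κ ≤ s := by
    apply csSup_le ⟨0, hne⟩
    rintro r ⟨C, hCS, -, rfl⟩
    exact ENNReal.toReal_mono hfin.ne (measure_mono hCS)
  have hCκ : ∀ C ⊆ S, Convex ℝ C → volume C ≤ ENNReal.ofReal κ := by
    intro C hCS hCc
    have h1 : volume C ≠ ⊤ := (lt_of_le_of_lt (measure_mono hCS) hfin).ne
    rw [← ENNReal.ofReal_toReal h1]
    exact ENNReal.ofReal_le_ofReal (le_csSup hbdd ⟨C, hCS, hCc, rfl⟩)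
  have hSs : volume S ≤ ENNReal.ofReal s := by rw [hs, ENNReal.ofReal_toReal hfin.ne]
  have hcon : con S = κ / s := rfl
  have hbeer : beer S = (volume (seg S)).toReal / s ^ 2 := rfl
  rw [hcon, hbeer]
  rcases hκ0.eq_or_lt with h0 | h0
  · -- the case `κ = 0`
    have hm : (volume (seg S)).toReal ≤ 0 := by
      apply le_of_forall_pos_le_add
      intro ε hε
      set δ : ℝ := min 1 (ε / (6720 * s ^ 2)) with hδ
      have hδ0 : 0 < δ := lt_min one_pos (by positivity)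
      have hδ1 : δ ≤ 1 := min_le_left _ _
      have hδ2 : δ ≤ ε / (6720 * s ^ 2) := min_le_right _ _
      have h1 := main_ineq hS (K := s * δ ^ 2) (s := s) (by positivity)
        (by nlinarith [pow_le_one₀ (n := 2) hδ0.le hδ1])
        (fun C hCS hCc => (hCκ C hCS hCc).trans
          (ENNReal.ofReal_le_ofReal (by rw [← h0]; positivity))) hSs hseg
      have h2 : Real.log (s / (s * δ ^ 2)) ≤ 2 / δ := by
        have e : s / (s * δ ^ 2) = (1 / δ) ^ 2 := by field_simp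
        rw [e, Real.log_pow]
        have h3 := Real.log_le_sub_one_of_pos (show (0 : ℝ) < 1 / δ by positivity)
        push_cast
        have h4 : (2 : ℝ) / δ = 2 * (1 / δ) := by ring
        rw [h4]
        linarith
      have h5 : 2240 * (s * δ ^ 2) * (1 + Real.log (s / (s * δ ^ 2))) * s ≤
          2240 * (s * δ ^ 2) * (1 + 2 / δ) * s := by
        gcongr
      have h6 : 2240 * (s * δ ^ 2) * (1 + 2 / δ) * s = 2240 * s ^ 2 * (δ ^ 2 + 2 * δ) := by
        field_simp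
      have h7 : 2240 * s ^ 2 * (δ ^ 2 + 2 * δ) ≤ 2240 * s ^ 2 * (3 * δ) := by
        gcongr
        nlinarith
      have h8 : 2240 * s ^ 2 * (3 * δ) ≤ ε := by
        rw [le_div_iff₀ (by positivity)] at hδ2
        linarith
      linarith
    have hm' : (volume (seg S)).toReal = 0 := le_antisymm hm ENNReal.toReal_nonneg
    rw [← h0, hm']
    simp
  · have h1 := main_ineq hS h0 hκs hCκ hSs hseg
    rw [div_le_iff₀ (by positivity)]
    refine h1.trans (le_of_eq ?_)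
    have e : 1 / (κ / s) = s / κ := by rw [one_div_div]
    rw [e]
    field_simp

end Pool.Agent.Results.MP_0d1e2e_co.LogBound
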